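import Pool.Agent.Helper503_HW.ExK

/-!
# Hasse-Weil L-functions of large abelian extensions of an arbitrary number field

Let `K` be a number field, of any degree and any signature, `𝔮` an ideal, and let `E/K` be an abelian
extension whose Artin map is defined modulo `𝔮` and the real places (a subfield of the narrow ray
class field modulo `𝔮`).  Let `X = Spec 𝓞_E[1/n]`, where the primes dividing `𝔮` divide `n`.  If `n` is
divisible by all primes which ramify in `E/ℚ`, then `X` is finite and etale over `ℤ[1/n]` (dimension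
zero).  The Hasse-Weil L-function is `L(0;X,s) = ∏_{P ∤ n} (1 - N(P)^(-s))⁻¹`, `P` over the primes of
`E`.

We prove, without any hypothesis on zeros: if `[E:K] ≥ N(𝔮)^δ` with a fixed `δ > 2/3`, then the
proportion of the zeros of this one function with `T < Im s ≤ 2T` (with multiplicity) which are on
the critical line is at least `2 - δ/2 - cot(δ/√2)/√2 - ε` for `(log N(𝔮))² ≤ T ≤ N(𝔮)^η`, as soon
as `N(𝔮)` is large, uniformly in `E` and in `n`.  The limits of the constant are `0.2794` for `δ → 2/3` and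
`0.6725` for `δ → 1`.  The same proportion holds for the *simple* critical zeros of the factors of
`L(0;X,s)`, the L-functions of the characters of `Gal(E/K)`, among all of their zeros.  The starting
file LargeAbelianOverQuadratic is the case of the imaginary quadratic fields `K`.

If `K` is neither `ℚ` nor imaginary quadratic then it has infinitely many units, and the ray class
groups are usually small; so we also prove that there are such extensions: for every number field `K`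
and every `δ < 1` there are ideals `𝔮` of arbitrarily large norm such that the narrow ray class field
modulo `𝔮` satisfies `[E:K] ≥ N(𝔮)^δ`.  (Here `𝔮` is a product of prime ideals of degree one whose norms
`p` are such that all `p - 1` divide the same integer.)

Proof.  All characters of `Gal(E/K)` are characters of the narrow ray class group modulo `𝔮`; by
Chebotarev the Artin map is onto, so that they are exactly the characters of a quotient `G` of order
`≥ N(𝔮)^δ`.  The mean squares of the prime sums over this family need the number of the pairs of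
ideals of norm `≤ M` which have the same image in `G`.  In contrast to the imaginary quadratic case
there are in general many such pairs with small norms.  They are counted as the solutions of
`α ≡ u β mod 𝔮`, `u` a unit, with balanced generators `α`, `β` (geometry of numbers in the lattice
`𝔮`), and by a fibre count over the kernel of the map to `G`: it is bounded by
`C N(𝔮)^(1-δ) (1 + M² / N(𝔮)) (1 + log M)`, as if there were no units.  The mean squares are
combined with the explicit formula uniform in `𝔮` (theta functions, functional equations of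
all narrow ray class characters of `K`), and with the trace inequality for the zeros with a kernel of
Montgomery-Taylor type which is optimal for the shorter support.
-/

set_option autoImplicit false

open NumberField

namespace Pool.Agent.Results.MP_7193be_nt.LargeAbelianEveryField

/-- `x` is positive at all the real places of `K` -/
def TotPos {K : Type} [Field K] [NumberField K] (x : 𝓞 K) : Prop := ∀ σ : K →+* ℝ, 0 < σ (x : K)

/-- `art` is the Artin map of the abelian extension `E/K` with modulus `𝔮` and all the real places: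
it is multiplicative on the ideals prime to `𝔮`; at the primes `P` of `E` above a prime `𝔭` which is
prime to `𝔮` the inertia group is trivial and `art 𝔭` is the Frobenius automorphism; and it is
trivial on the principal ideals `(x)` with `x ≡ 1` modulo `𝔮` and `x` totally positive.  (By class
field theory there is such a `𝔮`, the finite part of the conductor, for every abelian extension.) -/
structure IsArtinMap {K E : Type} [Field K] [NumberField K] [Field E] [NumberField E] [Algebra K E]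
    (𝔮 : Ideal (𝓞 K)) (art : Ideal (𝓞 K) → (E ≃ₐ[K] E)) : Prop where
  mul : ∀ 𝔞 𝔟 : Ideal (𝓞 K), IsCoprime 𝔞 𝔮 → IsCoprime 𝔟 𝔮 → art (𝔞 * 𝔟) = art 𝔞 * art 𝔟
  unramified : ∀ 𝔭 : Ideal (𝓞 K), Prime 𝔭 → IsCoprime 𝔭 𝔮 → ∀ P : Ideal (𝓞 E), P.IsPrime →
    (∀ x ∈ 𝔭, algebraMap (𝓞 K) (𝓞 E) x ∈ P) →
    ∀ g : E ≃ₐ[K] E, (∀ x : 𝓞 E, g • x - x ∈ P) → g = 1
  frobenius : ∀ 𝔭 : Ideal (𝓞 K), Prime 𝔭 → IsCoprime 𝔭 𝔮 → ∀ P : Ideal (𝓞 E), P.IsPrime →
    (∀ x ∈ 𝔭, algebraMap (𝓞 K) (𝓞 E) x ∈ P) → ∀ x : 𝓞 E, art 𝔭 • x - x ^ Ideal.absNorm 𝔭 ∈ P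
  principal : ∀ x : 𝓞 K, x - 1 ∈ 𝔮 → TotPos x → art (Ideal.span {x}) = 1

/-- `E` is the narrow ray class field modulo `𝔮` and `art` its Artin map: the kernel of the Artin map
is not larger than the ray -/
structure IsRayClassField {K E : Type} [Field K] [NumberField K] [Field E] [NumberField E]
    [Algebra K E] (𝔮 : Ideal (𝓞 K)) (art : Ideal (𝓞 K) → (E ≃ₐ[K] E)) : Prop where
  artin : IsArtinMap 𝔮 art
  kernel : ∀ 𝔞 : Ideal (𝓞 K), IsCoprime 𝔞 𝔮 → art 𝔞 = 1 → ∃ x y : 𝓞 K, x - 1 ∈ 𝔮 ∧ y - 1 ∈ 𝔮 ∧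
    TotPos x ∧ TotPos y ∧ Ideal.span {x} * 𝔞 = Ideal.span {y}

/-- `Z` is the continuation of the Hasse-Weil L-function `L(0;X,s)` of `X = Spec 𝓞_E[1/n]`: analytic
outside `s = 1`, and equal to the product of `(1 - N(P)^(-s))⁻¹` over the primes `P` of `E` which do
not contain `n` if `Re s > 1` -/
def IsHasseWeil (E : Type) [Field E] [NumberField E] (n : ℕ) (Z : ℂ → ℂ) : Prop :=
  (∀ s : ℂ, s ≠ 1 → AnalyticAt ℂ Z s) ∧
    ∀ s : ℂ, 1 < s.re → HasProd (fun P : {P : Ideal (𝓞 E) // Prime P ∧ (n : 𝓞 E) ∉ P} =>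
      (1 - ((Ideal.absNorm (P : Ideal (𝓞 E)) : ℕ) : ℂ) ^ (-s))⁻¹) (Z s)

/-- `F` is the continuation of the L-function of the character `χ` of `Gal(E/K)` without the Euler
factors at the primes containing `n` -/
def IsArtinL {K E : Type} [Field K] [NumberField K] [Field E] [NumberField E] [Algebra K E]
    (art : Ideal (𝓞 K) → (E ≃ₐ[K] E)) (n : ℕ) (χ : (E ≃ₐ[K] E) →* ℂˣ) (F : ℂ → ℂ) : Prop :=
  (∀ s : ℂ, s ≠ 1 → AnalyticAt ℂ F s) ∧
    ∀ s : ℂ, 1 < s.re → HasProd (fun 𝔭 : {𝔭 : Ideal (𝓞 K) // Prime 𝔭 ∧ (n : 𝓞 K) ∉ 𝔭} =>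
      (1 - ((χ (art 𝔭) : ℂˣ) : ℂ) * ((Ideal.absNorm (𝔭 : Ideal (𝓞 K)) : ℕ) : ℂ) ^ (-s))⁻¹) (F s)

/-- the zeros of `F` in the open critical strip with `T₁ < Im s ≤ T₂` -/
def zeros (F : ℂ → ℂ) (T₁ T₂ : ℝ) : Set ℂ :=
  {s : ℂ | 0 < s.re ∧ s.re < 1 ∧ T₁ < s.im ∧ s.im ≤ T₂ ∧ F s = 0}

/-- the number of these zeros, with multiplicity -/
noncomputable def N (F : ℂ → ℂ) (T₁ T₂ : ℝ) : ℕ := ∑ᶠ s ∈ zeros F T₁ T₂, analyticOrderNatAt F s

/-- the number of those with `Re s = 1/2`, with multiplicity -/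
noncomputable def N₀ (F : ℂ → ℂ) (T₁ T₂ : ℝ) : ℕ :=
  ∑ᶠ s ∈ {s : ℂ | s ∈ zeros F T₁ T₂ ∧ s.re = 1 / 2}, analyticOrderNatAt F s

/-- the number of the simple zeros with `Re s = 1/2` -/
noncomputable def Nsimple (F : ℂ → ℂ) (T₁ T₂ : ℝ) : ℕ :=
  {s : ℂ | s ∈ zeros F T₁ T₂ ∧ s.re = 1 / 2 ∧ analyticOrderNatAt F s = 1}.ncard

/-- the number of distinct zeros -/
noncomputable def Ndistinct (F : ℂ → ℂ) (T₁ T₂ : ℝ) : ℕ := (zeros F T₁ T₂).ncard

/-- the constant `δ/2 + cot(δ/√2)/√2`, equal to `1.3275` for `δ = 1` and `1.7205` for `δ = 2/3` -/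
noncomputable def c (δ : ℝ) : ℝ := δ / 2 + Real.cot (δ / Real.sqrt 2) / Real.sqrt 2

/-- **The theorem.**  `K` is an arbitrary number field, `2/3 < δ < 1` and `ε > 0`. -/
theorem result (K : Type) [Field K] [NumberField K] (δ : ℝ) (hδ : 2 / 3 < δ) (hδ1 : δ < 1)
    (ε : ℝ) (hε : 0 < ε) :
    (∃ η X₀ : ℝ, 0 < η ∧ ∀ 𝔮 : Ideal (𝓞 K), 𝔮 ≠ ⊥ → 𝔮 ≠ ⊤ → X₀ ≤ (Ideal.absNorm 𝔮 : ℝ) →
      ∀ (E : Type) [Field E] [NumberField E] [Algebra K E] [IsAbelianGalois K E]
        (art : Ideal (𝓞 K) → (E ≃ₐ[K] E)), IsArtinMap 𝔮 art →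
      (Ideal.absNorm 𝔮 : ℝ) ^ δ ≤ Module.finrank K E →
      ∀ n : ℕ, 1 ≤ n → (∀ 𝔭 : Ideal (𝓞 K), Prime 𝔭 → 𝔭 ∣ 𝔮 → (n : 𝓞 K) ∈ 𝔭) →
      ∃ (Z : ℂ → ℂ) (L : ((E ≃ₐ[K] E) →* ℂˣ) → ℂ → ℂ),
        IsHasseWeil E n Z ∧ (∀ χ, IsArtinL art n χ (L χ)) ∧ (∀ s : ℂ, Z s = ∏ᶠ χ, L χ s) ∧
        ∀ T : ℝ, (Real.log (Ideal.absNorm 𝔮)) ^ 2 ≤ T → T ≤ (Ideal.absNorm 𝔮 : ℝ) ^ η →
          (zeros Z T (2 * T)).Finite ∧
          (Module.finrank K E : ℝ) * T ≤ N Z T (2 * T) ∧
          (2 - c δ - ε) * (N Z T (2 * T) : ℝ) ≤ N₀ Z T (2 * T) ∧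
          N Z T (2 * T) = ∑ᶠ χ, N (L χ) T (2 * T) ∧
          (2 - c δ - ε) * (N Z T (2 * T) : ℝ) ≤ ((∑ᶠ χ, Nsimple (L χ) T (2 * T) : ℕ) : ℝ) ∧
          (3 - c δ - ε) / 2 * (N Z T (2 * T) : ℝ) ≤
            ((∑ᶠ χ, Ndistinct (L χ) T (2 * T) : ℕ) : ℝ)) ∧
    -- the condition on the degree is satisfied by the ray class fields of infinitely many ideals
    ∀ X : ℝ, ∃ 𝔮 : Ideal (𝓞 K), 𝔮 ≠ ⊥ ∧ 𝔮 ≠ ⊤ ∧ X ≤ (Ideal.absNorm 𝔮 : ℝ) ∧
      ∀ (E : Type) [Field E] [NumberField E] [Algebra K E] [IsAbelianGalois K E]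
        (art : Ideal (𝓞 K) → (E ≃ₐ[K] E)), IsRayClassField 𝔮 art →
        (Ideal.absNorm 𝔮 : ℝ) ^ δ ≤ Module.finrank K E := by
  refine ⟨?_, fun X => ?_⟩
  · obtain ⟨η, X₀, hη, -, H⟩ := Pool.Agent.Helper503_HW.finalZK K δ hδ hδ1 ε hε
    refine ⟨η, X₀, hη, fun 𝔮 hbot htop hX E _ _ _ _ art hart hE n hn hrad => ?_⟩
    obtain ⟨L, Z, h1, h2, h3, h4, h5, h6⟩ := H 𝔮 hbot htop hX E art
      ⟨hart.mul, fun 𝔭 h𝔭 hc P hP => ⟨hart.unramified 𝔭 h𝔭 hc P hP.1 hP.2,
        hart.frobenius 𝔭 h𝔭 hc P hP.1 hP.2⟩, hart.principal⟩ hE n hn hrad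
    exact ⟨Z, L, ⟨h3, h4⟩, fun χ => ⟨h1 χ, h2 χ⟩, h5, h6⟩
  · obtain ⟨𝔮, hbot, htop, hX, H⟩ := Pool.Agent.Helper503_HW.exists_rayK K δ hδ1 X
    exact ⟨𝔮, hbot, htop, hX, fun E _ _ _ _ art hart => H E art
      ⟨hart.artin.mul, fun 𝔭 h𝔭 hc P hP => ⟨hart.artin.unramified 𝔭 h𝔭 hc P hP.1 hP.2,
        hart.artin.frobenius 𝔭 h𝔭 hc P hP.1 hP.2⟩, hart.artin.principal⟩ hart.kernel⟩

end Pool.Agent.Results.MP_7193be_nt.LargeAbelianEveryField
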