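import Pool.Agent.A856.BH.Fin3K

/-!
# The zeros of bounded height of the L-functions of the powers of `y² = x³ - x`

Let `E : y² = x³ - x`, let `K` be the ray class field of `ℚ(i)` of modulus `q`, `2 + 2i ∣ q`, and let
`M ≥ 1` be an integer divisible by the primes of `K` above `q`.  Then `𝓞 K [1/M]` is etale over
`ℤ[1/M]`, and `X = E^g ⊗ 𝓞 K [1/M]` is a projective and smooth scheme over `ℤ[1/M]`, of relative
dimension `g`.  For a place `v ∤ M` of `K` let `α_v, β_v` be the roots of `T² - a_v T + N v`, where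
`a_v = N v - #{(x, y) mod v : y² = x³ - x}`.  By the Künneth formula
`L(i; X, s) = ∏_{v ∤ M} ∏_{a + b = i} (1 - α_v^a β_v^b (N v)^(-s))^(-C(g,a) C(g,b))`.

We prove for every single such `X` and all odd `i < 2g` with `min(i, 2g-i) ≤ J` (the dimension `g` is
arbitrary), without any hypothesis, that `L(i; X, s)` is entire and that at least 67.25 per cent of its
zeros with `i/2 < Re s < i/2 + 1` and `|Im s| ≤ T` are on the critical line `Re s = (i+1)/2`, for all
`T` between `C (1 + √(log (N(q)/[K : ℚ(i)])))` and `N(q)^η`, with constants `C` and `η > 0` which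
depend on `J` only.  Here `[K : ℚ(i)] = φ(q)/4`, so the lower limit is a constant if
`[K : ℚ(i)] ≥ κ N(q)`, and it is `O(√(log log log N(q)))` for all `q`.

Proof.  Put `i = 2m+1`.  As in `PowersRayClassFields.lean` (where `T ≥ C √(log N(q))` is needed)
`L(i; X, s)` is, up to Euler factors at the places above `M`,
`∏_{l ≤ m} ∏_χ (L(s - i/2, ψ^(2l+1) χ) L(s - i/2, ψ^(2l+1) χ')) ^ {C(g,m-l) C(g,m+1+l)}`,
where `χ` runs over the characters modulo `q`, `χ'` over those modulo the conjugate of `q`.  The lower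
limit for `T` there comes from the zeros near the end points of the interval, at a distance up to
`√(log N(q))`, whose contribution to the explicit formula was bounded trivially.  Here the inequality
between the sums over the zeros is proved with the zeros far from the interval left out
(`Pool/Agent/A856/BH`); the contribution of those which are not too far from the critical line is
exponentially small in their distance from the interval, and the number of the other ones is bounded,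
on the average over the characters, by Selberg's density theorem for the L-functions of infinity type
`2l+1` (`Pool/Agent/A856/SE`), so that only the zeros at a bounded distance from the end points are
lost.  For `g = 1` the theorem is the case `D = 1` of `LowZeros6725.lean` (MP_fb225e_nt).
-/

set_option autoImplicit false

open Complex NumberField IsDedekindDomain

namespace Pool.Agent.Results.MP_7193be_nt.LowZerosPowers

/-- `K` is the ray class field of `ℚ(i)` of modulus `q`: `ι` embeds `ℤ[i]` into the ring of integers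
of `K`, and `art` is the Artin map, a homomorphism from `(ℤ[i]/q)ˣ` to the group of automorphisms of
the ring of integers of `K` (equivalently of `K`) such that
* `ℤ[i]` is the ring of invariants (so `K/ℚ(i)` is Galois and its group is the image of `art`),
* the kernel consists of the classes of the units of `ℤ[i]` (so the Galois group is the ray class
  group modulo `q`),
* `K/ℚ(i)` is unramified outside `q`: the inertia group at every prime `v` of `K` not dividing `q`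
  is trivial,
* for every prime `π` of `ℤ[i]` not dividing `q`, `art π` is the Frobenius automorphism
  `x ↦ x ^ N(π)` at all primes `v` of `K` above `π`. -/
structure IsRayClassField (q : GaussianInt) (K : Type) [Field K] [NumberField K]
    (ι : GaussianInt →+* 𝓞 K)
    (art : (GaussianInt ⧸ Ideal.span {q})ˣ →* (𝓞 K ≃+* 𝓞 K)) : Prop where
  invariants : ∀ x : 𝓞 K, (∀ u, art u x = x) ↔ x ∈ ι.range
  kernel : ∀ u : (GaussianInt ⧸ Ideal.span {q})ˣ, art u = 1 ↔
    ∃ e : GaussianIntˣ, (u : GaussianInt ⧸ Ideal.span {q}) = Ideal.Quotient.mk _ (e : GaussianInt)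
  unramified : ∀ v : HeightOneSpectrum (𝓞 K), ι q ∉ v.asIdeal →
    ∀ u, (∀ x, art u x - x ∈ v.asIdeal) → art u = 1
  frobenius : ∀ π : GaussianInt, Prime π → ∀ u : (GaussianInt ⧸ Ideal.span {q})ˣ,
    (u : GaussianInt ⧸ Ideal.span {q}) = Ideal.Quotient.mk _ π →
    ∀ v : HeightOneSpectrum (𝓞 K), ι π ∈ v.asIdeal →
      ∀ x : 𝓞 K, art u x - x ^ π.norm.natAbs ∈ v.asIdeal

section
variable {K : Type} [Field K] [NumberField K]

/-- the Frobenius trace `a_v` of `y² = x³ - x`: the number of the residue classes modulo `v` minus the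
number of the affine solutions `(x, y)` of the equation over the residue field `𝓞 K / v` -/
noncomputable def a (v : HeightOneSpectrum (𝓞 K)) : ℤ :=
  ((Ideal.absNorm v.asIdeal : ℕ) : ℤ) -
    ((Nat.card {p : (𝓞 K ⧸ v.asIdeal) × (𝓞 K ⧸ v.asIdeal) // p.2 ^ 2 = p.1 ^ 3 - p.1} : ℕ) : ℤ)

/-- `α v`, `β v` are the roots of `T² - a_v T + N v` for every place `v` of `K` not dividing `M` -/
def FrobeniusRoots (M : ℕ) (α β : HeightOneSpectrum (𝓞 K) → ℂ) : Prop :=
  ∀ v : HeightOneSpectrum (𝓞 K), (M : 𝓞 K) ∉ v.asIdeal →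
    α v + β v = (a v : ℂ) ∧ α v * β v = ((Ideal.absNorm v.asIdeal : ℕ) : ℂ)

/-- the local factor of `H^i(E^g)` at a place with `n` residue classes: the product of
`(1 - α^j β^(i-j) n^(-s))` over `0 ≤ j ≤ i` with the multiplicities `C(g, j) C(g, i-j)` -/
noncomputable def P (g i : ℕ) (α β : ℂ) (n : ℕ) (s : ℂ) : ℂ :=
  ∏ j ∈ Finset.range (i + 1),
    (1 - α ^ j * β ^ (i - j) * (n : ℂ) ^ (-s)) ^ (g.choose j * g.choose (i - j))

end

/-- `L` is the continuation of `L(i; E^g ⊗ 𝓞 K [1/M], s) = ∏_{v ∤ M} P_i(v, s)⁻¹` to an entire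
function -/
def IsHasseWeil (K : Type) [Field K] [NumberField K] (M g i : ℕ) (L : ℂ → ℂ) : Prop :=
  Differentiable ℂ L ∧ ∀ α β : HeightOneSpectrum (𝓞 K) → ℂ, FrobeniusRoots M α β →
    ∀ s : ℂ, 1 + (i : ℝ) / 2 < s.re →
      HasProd (fun v : {v : HeightOneSpectrum (𝓞 K) // (M : 𝓞 K) ∉ v.asIdeal} =>
        (P g i (α v) (β v) (Ideal.absNorm v.1.asIdeal) s)⁻¹) (L s)

/-- The zeros of `F` with `i/2 < Re s < i/2 + 1` and `|Im s| ≤ T`. -/
def zeros (i : ℕ) (F : ℂ → ℂ) (T : ℝ) : Set ℂ :=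
  {s : ℂ | (i : ℝ) / 2 < s.re ∧ s.re < (i : ℝ) / 2 + 1 ∧ |s.im| ≤ T ∧ F s = 0}

/-- The number of these zeros, counted with multiplicity. -/
noncomputable def N (i : ℕ) (F : ℂ → ℂ) (T : ℝ) : ℕ := ∑ᶠ s ∈ zeros i F T, analyticOrderNatAt F s

/-- The number of those of them that lie on the critical line `Re s = (i+1)/2`, counted with
multiplicity. -/
noncomputable def N₀ (i : ℕ) (F : ℂ → ℂ) (T : ℝ) : ℕ :=
  ∑ᶠ s ∈ {s : ℂ | s ∈ zeros i F T ∧ s.re = ((i : ℝ) + 1) / 2}, analyticOrderNatAt F s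

open Pool.Agent.Y762.EG (LG LG_diff GP GP_diff GP_ne hasProd_N)
open Pool.Agent.A856.BH (Wc Lc Lc_sub)

lemma re_add (s : ℂ) (i : ℕ) : (s + (i : ℂ) / 2).re = s.re + (i : ℝ) / 2 := by
  rw [show ((i : ℂ) / 2) = (((i : ℝ) / 2 : ℝ) : ℂ) by push_cast; rfl, Complex.add_re,
    Complex.ofReal_re]

lemma im_add (s : ℂ) (i : ℕ) : (s + (i : ℂ) / 2).im = s.im := by
  rw [show ((i : ℂ) / 2) = (((i : ℝ) / 2 : ℝ) : ℂ) by push_cast; rfl, Complex.add_im,
    Complex.ofReal_im, add_zero]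

lemma zeros_eq (F G : ℂ → ℂ) (i : ℕ) (T : ℝ) (hG : ∀ s : ℂ, (i : ℝ) / 2 < s.re → G s ≠ 0) :
    zeros i (fun s => F (s - (i : ℂ) / 2) * G s) T =
      (fun s : ℂ => s + (i : ℂ) / 2) '' {s : ℂ | s ∈ Wc T ∧ F s = 0} := by
  ext s
  constructor
  · rintro ⟨h1, h2, h3, h4⟩
    have e1 := re_add (s - (i : ℂ) / 2) i
    have e2 := im_add (s - (i : ℂ) / 2) i
    rw [sub_add_cancel] at e1 e2
    refine ⟨s - (i : ℂ) / 2, ⟨⟨?_, ?_, ?_⟩, (mul_eq_zero.1 h4).resolve_right (hG s h1)⟩, by simp⟩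
    · linarith
    · linarith
    · rw [← e2]; exact h3
  · rintro ⟨z, ⟨⟨h2, h3, h5⟩, h1⟩, rfl⟩
    have e0 : z + (i : ℂ) / 2 - (i : ℂ) / 2 = z := by ring
    have e1 := re_add z i
    have e2 := im_add z i
    refine ⟨?_, ?_, ?_, ?_⟩
    · show (i : ℝ) / 2 < (z + (i : ℂ) / 2).re
      linarith
    · show (z + (i : ℂ) / 2).re < (i : ℝ) / 2 + 1
      linarith
    · show |(z + (i : ℂ) / 2).im| ≤ T
      rw [e2]; exact h5
    · show F (z + (i : ℂ) / 2 - (i : ℂ) / 2) * G (z + (i : ℂ) / 2) = 0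
      rw [e0, h1, zero_mul]

lemma zeros0_eq (F G : ℂ → ℂ) (i : ℕ) (T : ℝ) (hG : ∀ s : ℂ, (i : ℝ) / 2 < s.re → G s ≠ 0) :
    {s : ℂ | s ∈ zeros i (fun s => F (s - (i : ℂ) / 2) * G s) T ∧ s.re = ((i : ℝ) + 1) / 2} =
      (fun s : ℂ => s + (i : ℂ) / 2) '' {s : ℂ | s ∈ Lc T ∧ F s = 0} := by
  rw [zeros_eq F G i T hG]
  ext s
  constructor
  · rintro ⟨⟨z, ⟨⟨h2, h3, h5⟩, h1⟩, rfl⟩, h6⟩
    have e1 := re_add z i
    refine ⟨z, ⟨⟨?_, h5⟩, h1⟩, rfl⟩
    have h7 : (z + (i : ℂ) / 2).re = ((i : ℝ) + 1) / 2 := h6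
    linarith
  · rintro ⟨z, ⟨h2, h1⟩, rfl⟩
    refine ⟨⟨z, ⟨Lc_sub T h2, h1⟩, rfl⟩, ?_⟩
    show (z + (i : ℂ) / 2).re = ((i : ℝ) + 1) / 2
    rw [re_add, h2.1]
    ring

lemma order_eq {F G : ℂ → ℂ} (hF : Differentiable ℂ F) (hGd : Differentiable ℂ G) (i : ℕ) {z : ℂ}
    (h0 : G (z + (i : ℂ) / 2) ≠ 0) :
    analyticOrderNatAt (fun s => F (s - (i : ℂ) / 2) * G s) (z + (i : ℂ) / 2) =
      analyticOrderNatAt F z := by
  have h1 : Differentiable ℂ (fun s => F (s - (i : ℂ) / 2)) :=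
    hF.comp (differentiable_id.sub_const _)
  have h2 : analyticOrderAt (fun s => F (s - (i : ℂ) / 2)) (z + (i : ℂ) / 2) =
      analyticOrderAt F z := by
    have hg : AnalyticAt ℂ (fun s : ℂ => s - (i : ℂ) / 2) (z + (i : ℂ) / 2) := by fun_prop
    have hd : deriv (fun s : ℂ => s - (i : ℂ) / 2) (z + (i : ℂ) / 2) ≠ 0 := by simp
    have h := analyticOrderAt_comp_of_deriv_ne_zero (f := F) hg hd
    have h2 : (fun s : ℂ => F (s - (i : ℂ) / 2)) = F ∘ (fun s : ℂ => s - (i : ℂ) / 2) := rfl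
    rw [h2, h]
    congr 1
    ring
  unfold analyticOrderNatAt
  rw [Pool.Agent.W164.RC.order_mul_ne (h1.analyticAt _) (hGd.analyticAt _) h0, h2]

/-- **Main theorem.** For every `J` there are constants `C` and `η > 0` such that for all `g`, all odd
`i < 2g` with `min(i, 2g-i) ≤ J`, the ray class field `K` of `ℚ(i)` of every modulus `q`,
`2 + 2i ∣ q`, and all `M` the function `L(i; E^g ⊗ 𝓞 K [1/M], s)` is entire, and for
`C (1 + √(log (N(q) / [K : ℚ(i)]))) ≤ T ≤ N(q) ^ η` at least 67.25% of its zeros with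
`i/2 < Re s < i/2 + 1`, `|Im s| ≤ T` (with multiplicity) lie on the line `Re s = (i+1)/2`; the number
of these zeros is at least `C(2g, i) [K : ℚ(i)] T log N(q) / 8`. -/
theorem result (J : ℕ) : ∃ C η : ℝ, 0 < η ∧
    ∀ g i : ℕ, Odd i → i < 2 * g → min i (2 * g - i) ≤ J →
    ∀ q : GaussianInt, q ≠ 0 → (⟨2, 2⟩ : GaussianInt) ∣ q →
    ∀ (K : Type) [Field K] [NumberField K] (ι : GaussianInt →+* 𝓞 K)
      (art : (GaussianInt ⧸ Ideal.span {q})ˣ →* (𝓞 K ≃+* 𝓞 K)), IsRayClassField q K ι art →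
    ∀ M : ℕ, M ≠ 0 →
      (∀ v : HeightOneSpectrum (𝓞 K), ι q ∈ v.asIdeal → (M : 𝓞 K) ∈ v.asIdeal) →
    ∃ L : ℂ → ℂ, IsHasseWeil K M g i L ∧
      ∀ T : ℝ, C * (1 + Real.sqrt (Real.log ((Zsqrtd.norm q : ℝ) / Nat.card art.range))) ≤ T →
        T ≤ (Zsqrtd.norm q : ℝ) ^ η →
        (zeros i L T).Finite ∧
        (((2 * g).choose i : ℕ) : ℝ) * (Nat.card art.range : ℝ) * T *
          Real.log (Zsqrtd.norm q : ℝ) / 8 ≤ (N i L T : ℝ) ∧
        0.6725 * (N i L T : ℝ) ≤ (N₀ i L T : ℝ) := by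
  classical
  obtain ⟨cd, pr, hprim⟩ := Pool.Agent.Y762.HK.exists_prim
  obtain ⟨C₀, X₀, η, hC₀, hη, Hz⟩ := Pool.Agent.A856.BH.bh_mainK cd pr hprim J
  obtain ⟨C, hC⟩ : ∃ C : ℝ, C = max 1 (max C₀ (|X₀| ^ η + 1)) := ⟨_, rfl⟩
  have hC1 : 1 ≤ C := by rw [hC]; exact le_max_left _ _
  have hC2 : C₀ ≤ C := by rw [hC]; exact (le_max_left _ _).trans (le_max_right _ _)
  have hC3 : |X₀| ^ η + 1 ≤ C := by rw [hC]; exact (le_max_right _ _).trans (le_max_right _ _)
  refine ⟨C, η, hη, ?_⟩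
  rintro g i ⟨m, rfl⟩ hg hJ q hq h2 K _ _ ι art hK M hM hqM
  have hK' : Pool.Agent.W164.RC.IsRayClassField q K ι art :=
    ⟨hK.invariants, hK.kernel, hK.unramified, hK.frobenius⟩
  have hcard := Pool.Agent.W164.RC.ray_card hq h2 hK'
  have hFd := LG_diff cd pr hprim hq g m
  have hGd := GP_diff q ι M hM g (2 * m + 1)
  have hGn : ∀ s : ℂ, ((2 * m + 1 : ℕ) : ℝ) / 2 < s.re → GP q ι M hM g (2 * m + 1) s ≠ 0 :=
    fun s hs => GP_ne h2 ι M hM g (2 * m + 1) hs
  have hnq : (H385.nrm q : ℝ) = (Zsqrtd.norm q : ℝ) := by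
    unfold H385.nrm
    rw [Nat.cast_natAbs, abs_of_nonneg (GaussianInt.norm_nonneg q)]
  obtain ⟨L, hL⟩ : ∃ L : ℂ → ℂ, L = fun s => LG pr q g m (s - ((2 * m + 1 : ℕ) : ℂ) / 2) *
    GP q ι M hM g (2 * m + 1) s := ⟨_, rfl⟩
  have hzeros : ∀ T : ℝ, zeros (2 * m + 1) L T =
      (fun s : ℂ => s + ((2 * m + 1 : ℕ) : ℂ) / 2) '' {s : ℂ | s ∈ Wc T ∧ LG pr q g m s = 0} := by
    intro T
    rw [hL]
    exact zeros_eq _ _ _ _ hGn
  have hzeros0 : ∀ T : ℝ,
      {s : ℂ | s ∈ zeros (2 * m + 1) L T ∧ s.re = (((2 * m + 1 : ℕ) : ℝ) + 1) / 2} =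
      (fun s : ℂ => s + ((2 * m + 1 : ℕ) : ℂ) / 2) '' {s : ℂ | s ∈ Lc T ∧ LG pr q g m s = 0} := by
    intro T
    rw [hL]
    exact zeros0_eq _ _ _ _ hGn
  have hinj : Function.Injective (fun s : ℂ => s + ((2 * m + 1 : ℕ) : ℂ) / 2) :=
    add_left_injective _
  have hord : ∀ z : ℂ, 0 < z.re → analyticOrderNatAt L (z + ((2 * m + 1 : ℕ) : ℂ) / 2) =
      analyticOrderNatAt (LG pr q g m) z := by
    intro z hz
    rw [hL]
    refine order_eq hFd hGd _ (hGn _ ?_)
    have e1 := re_add z (2 * m + 1)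
    linarith
  have hN : ∀ T : ℝ, N (2 * m + 1) L T = Pool.Agent.H82R3.EK.cnt (LG pr q g m) (Wc T) := by
    intro T
    unfold N Pool.Agent.H82R3.EK.cnt H370.mult
    rw [hzeros, finsum_mem_image hinj.injOn]
    exact finsum_mem_congr rfl fun z hz => hord z hz.1.1
  have hN₀ : ∀ T : ℝ, N₀ (2 * m + 1) L T = Pool.Agent.H82R3.EK.cnt (LG pr q g m) (Lc T) := by
    intro T
    unfold N₀ Pool.Agent.H82R3.EK.cnt H370.mult
    rw [hzeros0, finsum_mem_image hinj.injOn]
    exact finsum_mem_congr rfl fun z hz => hord z (by rw [hz.1.1]; norm_num)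
  refine ⟨L, ⟨?_, ?_⟩, ?_⟩
  · rw [hL]
    exact (hFd.comp (differentiable_id.sub_const _)).mul hGd
  · intro α β hαβ s hs
    rw [hL]
    exact hasProd_N cd pr hprim hq h2 hK' M hM hqM α β hαβ g m hs
  · intro T hT1 hT2
    have hN0 : (1 : ℝ) ≤ (Zsqrtd.norm q : ℝ) := by
      rw [← hnq]
      exact_mod_cast H385.H10.nrm_pos hq
    have hNp : (0 : ℝ) < (Zsqrtd.norm q : ℝ) := by linarith
    have hφ0 := Pool.Agent.A856.BH.phi_pos' hq
    have hcr : (H385.phiQ q : ℝ) = 4 * (Nat.card art.range : ℝ) := by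
      rw [← hcard]
      push_cast
      rfl
    have hc0 : (0 : ℝ) < (Nat.card art.range : ℝ) := by
      rw [hcr] at hφ0
      linarith
    have hs0 := Real.sqrt_nonneg (Real.log ((Zsqrtd.norm q : ℝ) / Nat.card art.range))
    have hCT : C ≤ T := by nlinarith
    have hX : X₀ ≤ (H385.nrm q : ℝ) := by
      by_contra hcon
      push Not at hcon
      rw [hnq] at hcon
      have h3 : (Zsqrtd.norm q : ℝ) ≤ |X₀| := hcon.le.trans (le_abs_self _)
      have h4 := Real.rpow_le_rpow hNp.le h3 hη.le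
      linarith
    have hρ : Real.log (Pool.Agent.A856.BH.rho q) ≤
        Real.log ((Zsqrtd.norm q : ℝ) / Nat.card art.range) := by
      have h3 := Pool.Agent.A856.BH.rho_ge hq
      refine Real.log_le_log (by linarith) ?_
      unfold Pool.Agent.A856.BH.rho
      rw [hnq, hcr]
      exact div_le_div_of_nonneg_left hNp.le hc0 (by linarith)
    have hρ2 := Real.sqrt_le_sqrt hρ
    have hρ0 := Real.sqrt_nonneg (Real.log (Pool.Agent.A856.BH.rho q))
    have hT3 : C₀ * (1 + Real.sqrt (Real.log (Pool.Agent.A856.BH.rho q))) ≤ T := by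
      refine le_trans ?_ hT1
      exact mul_le_mul hC2 (by linarith) (by linarith) (by linarith)
    obtain ⟨c2, c3⟩ := Hz g m hg hJ q hq h2 hX T hT3 (by rw [hnq]; exact hT2)
    rw [hN, hN₀, hzeros]
    refine ⟨(Pool.Agent.A856.BH.LG_cntB cd pr hprim hq g m (τ := T) (W := Wc T)
      subset_rfl).2.image _, ?_, c3⟩
    refine le_trans (le_of_eq ?_) c2
    rw [hcr, hnq]
    ring

end Pool.Agent.Results.MP_7193be_nt.LowZerosPowers
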