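import Pool.Agent.A856.SE.MainK
import Pool.Agent.Y762.HK.Fin

/-!
# Selberg's density theorem for the powers of `y² = x³ - x` over the ray class fields of `ℚ(i)`

Let `E : y² = x³ - x`, let `K` be the ray class field of `ℚ(i)` of modulus `q`, `2 + 2i ∣ q`, and let
`M ≥ 1` be an integer divisible by the primes of `K` above `q`.  Then `𝓞 K [1/M]` is etale over
`ℤ[1/M]`, and `X = E^g ⊗ 𝓞 K [1/M]` is a projective and smooth scheme over `ℤ[1/M]`, of relative
dimension `g`.  For a place `v ∤ M` of `K` let `α_v, β_v` be the roots of `T² - a_v T + N v`, where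
`a_v = N v - #{(x, y) mod v : y² = x³ - x}`.  By the Künneth formula
`L(i; X, s) = ∏_{v ∤ M} ∏_{a + b = i} (1 - α_v^a β_v^b (N v)^(-s))^(-C(g,a) C(g,b))`.

Let `g` and an odd `i < 2g` be fixed, and let `[K : ℚ(i)] = φ(q)/4 ≥ κ N(q)` (this only excludes moduli
with many small prime factors).  We prove for every single such `X`, without any hypothesis and with
constants depending only on `g`, `i`, `κ`, `c < 1`, `ε`, `T`, writing `N = N(q)`:
* the number of zeros of `L(i; X, s)` with `i/2 < Re s < i/2 + 1`, `|Re s - (i+1)/2| ≥ δ` and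
  `|Im s - t| ≤ 1 / log N` is at most `C N^(1 - c δ)`, for all `δ ≥ 0` and `|t| ≤ T`;
* all but `ε [K : ℚ(i)] log N` of the zeros with `i/2 < Re s < i/2 + 1`, `|Im s| ≤ T` satisfy
  `|Re s - (i+1)/2| < A / log N`;
* the order of vanishing of `L(i; X, s)` at the points `(i+1)/2 + it`, `|t| ≤ T`, in particular at the
  central point, is at most `C [K : ℚ(i)]`.

So (d) of the conjecture holds for these `L(i; X, s)` up to `ε` of the zeros of bounded height and up
to a distance `A / log N`, comparable to the mean distance of the zeros of one of the Hecke L-functions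
which are the factors of `L(i; X, s)`.

Proof.  Put `i = 2m+1`.  Gauss' formula for `a_v`, class field theory for `K` (the Artin map is given
with `K`) and the theta series with harmonic polynomials give (`Pool/Agent/Y762/EG`)
`L(i; X, s) = ∏_{l ≤ m} ∏_χ (L(s - i/2, ψ^(2l+1) χ) L(s - i/2, ψ^(2l+1) χ')) ^ {C(g,m-l) C(g,m+1+l)}`,
up to Euler factors at the places above `M`, without zeros for `Re s > i/2`; here `χ` runs over the
characters modulo `q`, `χ'` over those modulo the conjugate of `q`.  For the characters of a given exact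
conductor `d ∣ q` and given `l` we prove Selberg's density theorem with a mollifier of length
`N(d)^(1/2 - ε)`, the large sieve for the residue classes modulo `d` of the generators of the ideals,
and Jensen's formula on the images of large discs under the logarithm (`Pool/Agent/A856/SD`, `SE`);
then we sum over the divisors `d` of `q`.
-/

set_option autoImplicit false

open Complex NumberField IsDedekindDomain

namespace Pool.Agent.Results.MP_7193be_nt.SelbergPowers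

/-- `K` is the ray class field of `ℚ(i)` of modulus `q`: `ι` embeds `ℤ[i]` into the ring of integers
of `K`, and `art` is the Artin map, a homomorphism from `(ℤ[i]/q)ˣ` to the group of automorphisms of
the ring of integers of `K` (equivalently of `K`) such that
* `ℤ[i]` is the ring of invariants (so `K/ℚ(i)` is Galois and its group is the image of `art`),
* the kernel consists of the classes of the units of `ℤ[i]` (so the Galois group is the ray class
  group modulo `q`),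
* `K/ℚ(i)` is unramified outside `q`: the inertia group at every prime `v` of `K` not dividing `q`
  is trivial,
* for every prime `π` of `ℤ[i]` not dividing `q`, `art π` is the Frobenius automorphism
  `x ↦ x ^ N(π)` at all primes `v` of `K` above `π`. -/
structure IsRayClassField (q : GaussianInt) (K : Type) [Field K] [NumberField K]
    (ι : GaussianInt →+* 𝓞 K)
    (art : (GaussianInt ⧸ Ideal.span {q})ˣ →* (𝓞 K ≃+* 𝓞 K)) : Prop where
  invariants : ∀ x : 𝓞 K, (∀ u, art u x = x) ↔ x ∈ ι.range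
  kernel : ∀ u : (GaussianInt ⧸ Ideal.span {q})ˣ, art u = 1 ↔
    ∃ e : GaussianIntˣ, (u : GaussianInt ⧸ Ideal.span {q}) = Ideal.Quotient.mk _ (e : GaussianInt)
  unramified : ∀ v : HeightOneSpectrum (𝓞 K), ι q ∉ v.asIdeal →
    ∀ u, (∀ x, art u x - x ∈ v.asIdeal) → art u = 1
  frobenius : ∀ π : GaussianInt, Prime π → ∀ u : (GaussianInt ⧸ Ideal.span {q})ˣ,
    (u : GaussianInt ⧸ Ideal.span {q}) = Ideal.Quotient.mk _ π →
    ∀ v : HeightOneSpectrum (𝓞 K), ι π ∈ v.asIdeal →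
      ∀ x : 𝓞 K, art u x - x ^ π.norm.natAbs ∈ v.asIdeal

section
variable {K : Type} [Field K] [NumberField K]

/-- the Frobenius trace `a_v` of `y² = x³ - x`: the number of the residue classes modulo `v` minus the
number of the affine solutions `(x, y)` of the equation over the residue field `𝓞 K / v` -/
noncomputable def a (v : HeightOneSpectrum (𝓞 K)) : ℤ :=
  ((Ideal.absNorm v.asIdeal : ℕ) : ℤ) -
    ((Nat.card {p : (𝓞 K ⧸ v.asIdeal) × (𝓞 K ⧸ v.asIdeal) // p.2 ^ 2 = p.1 ^ 3 - p.1} : ℕ) : ℤ)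

/-- `α v`, `β v` are the roots of `T² - a_v T + N v` for every place `v` of `K` not dividing `M` -/
def FrobeniusRoots (M : ℕ) (α β : HeightOneSpectrum (𝓞 K) → ℂ) : Prop :=
  ∀ v : HeightOneSpectrum (𝓞 K), (M : 𝓞 K) ∉ v.asIdeal →
    α v + β v = (a v : ℂ) ∧ α v * β v = ((Ideal.absNorm v.asIdeal : ℕ) : ℂ)

/-- the local factor of `H^i(E^g)` at a place with `n` residue classes: the product of
`(1 - α^j β^(i-j) n^(-s))` over `0 ≤ j ≤ i` with the multiplicities `C(g, j) C(g, i-j)` -/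
noncomputable def P (g i : ℕ) (α β : ℂ) (n : ℕ) (s : ℂ) : ℂ :=
  ∏ j ∈ Finset.range (i + 1),
    (1 - α ^ j * β ^ (i - j) * (n : ℂ) ^ (-s)) ^ (g.choose j * g.choose (i - j))

end

/-- `L` is the continuation of `L(i; E^g ⊗ 𝓞 K [1/M], s) = ∏_{v ∤ M} P_i(v, s)⁻¹` to an entire
function -/
def IsHasseWeil (K : Type) [Field K] [NumberField K] (M g i : ℕ) (L : ℂ → ℂ) : Prop :=
  Differentiable ℂ L ∧ ∀ α β : HeightOneSpectrum (𝓞 K) → ℂ, FrobeniusRoots M α β →
    ∀ s : ℂ, 1 + (i : ℝ) / 2 < s.re →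
      HasProd (fun v : {v : HeightOneSpectrum (𝓞 K) // (M : 𝓞 K) ∉ v.asIdeal} =>
        (P g i (α v) (β v) (Ideal.absNorm v.1.asIdeal) s)⁻¹) (L s)

/-- The zeros of `F` with `i/2 < Re s < i/2 + 1` at distance at least `δ` from the line
`Re s = (i+1)/2`, with `|Im s - t| ≤ r`. -/
def off (i : ℕ) (F : ℂ → ℂ) (δ t r : ℝ) : Set ℂ :=
  {s : ℂ | F s = 0 ∧ (i : ℝ) / 2 < s.re ∧ s.re < (i : ℝ) / 2 + 1 ∧ δ ≤ |s.re - ((i : ℝ) + 1) / 2| ∧
    |s.im - t| ≤ r}

/-- The number of these zeros, counted with multiplicity. -/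
noncomputable def Noff (i : ℕ) (F : ℂ → ℂ) (δ t r : ℝ) : ℕ :=
  ∑ᶠ s ∈ off i F δ t r, analyticOrderNatAt F s

/-- The three properties of the zeros of `L(i; X, s)`: `N` is the norm of the modulus, `n` the degree
of `K` over `ℚ(i)`.
* `density`: at most `C N^(1 - c δ)` zeros (with multiplicity) with `i/2 < Re s < i/2 + 1`,
  `|Re s - (i+1)/2| ≥ δ`, `|Im s - t| ≤ 1 / log N`, for `δ ≥ 0` and `|t| ≤ T`;
* `near`: at most `ε n log N` zeros with `i/2 < Re s < i/2 + 1`, `|Re s - (i+1)/2| ≥ A / log N`,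
  `|Im s| ≤ T`;
* `order`: the order of vanishing at `(i+1)/2 + it` is at most `C n`, for `|t| ≤ T`. -/
structure ZerosNearLine (i : ℕ) (c ε T A C N n : ℝ) (L : ℂ → ℂ) : Prop where
  finite : ∀ δ t r : ℝ, (off i L δ t r).Finite
  density : ∀ δ t : ℝ, 0 ≤ δ → |t| ≤ T → (Noff i L δ t (1 / Real.log N) : ℝ) ≤ C * N ^ (1 - c * δ)
  near : (Noff i L (A / Real.log N) 0 T : ℝ) ≤ ε * (n * Real.log N)
  order : ∀ t : ℝ, |t| ≤ T → (analyticOrderNatAt L ((i + 1) / 2 + t * I) : ℝ) ≤ C * n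

open Pool.Agent.A856.SD (Zst Zst_bdd fin_zeros)
open Pool.Agent.Y762.EG (LG LG_diff GP GP_diff GP_ne hasProd_N)

lemma re_sub (s : ℂ) (i : ℕ) : (s - (i : ℂ) / 2).re = s.re - (i : ℝ) / 2 := by
  rw [show ((i : ℂ) / 2) = (((i : ℝ) / 2 : ℝ) : ℂ) by push_cast; rfl, Complex.sub_re,
    Complex.ofReal_re]

lemma im_sub (s : ℂ) (i : ℕ) : (s - (i : ℂ) / 2).im = s.im := by
  rw [show ((i : ℂ) / 2) = (((i : ℝ) / 2 : ℝ) : ℂ) by push_cast; rfl, Complex.sub_im,
    Complex.ofReal_im, sub_zero]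

lemma off_eq (F G : ℂ → ℂ) (i : ℕ) (δ t r : ℝ) (hG : ∀ s : ℂ, (i : ℝ) / 2 < s.re → G s ≠ 0) :
    off i (fun s => F (s - (i : ℂ) / 2) * G s) δ t r =
      (fun s : ℂ => s + (i : ℂ) / 2) '' Zst F δ t r := by
  ext s
  constructor
  · rintro ⟨h1, h2, h3, h4, h5⟩
    refine ⟨s - (i : ℂ) / 2, ⟨(mul_eq_zero.1 h1).resolve_right (hG s h2), ?_, ?_, ?_, ?_⟩, by simp⟩
    · rw [re_sub]; linarith
    · rw [re_sub]; linarith
    · rw [re_sub, show s.re - (i : ℝ) / 2 - 1 / 2 = s.re - ((i : ℝ) + 1) / 2 by ring]; exact h4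
    · rw [im_sub]; exact h5
  · rintro ⟨z, ⟨h1, h2, h3, h4, h5⟩, rfl⟩
    have e0 : z + (i : ℂ) / 2 - (i : ℂ) / 2 = z := by ring
    have e1 := re_sub (z + (i : ℂ) / 2) i
    have e2 := im_sub (z + (i : ℂ) / 2) i
    rw [e0] at e1 e2
    refine ⟨?_, ?_, ?_, ?_, ?_⟩
    · show F (z + (i : ℂ) / 2 - (i : ℂ) / 2) * G (z + (i : ℂ) / 2) = 0
      rw [e0, h1, zero_mul]
    · show (i : ℝ) / 2 < (z + (i : ℂ) / 2).re
      linarith
    · show (z + (i : ℂ) / 2).re < (i : ℝ) / 2 + 1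
      linarith
    · show δ ≤ |(z + (i : ℂ) / 2).re - ((i : ℝ) + 1) / 2|
      rw [show (z + (i : ℂ) / 2).re - ((i : ℝ) + 1) / 2 = z.re - 1 / 2 by linarith]
      exact h4
    · show |(z + (i : ℂ) / 2).im - t| ≤ r
      rw [← e2]; exact h5

lemma order_eq {F G : ℂ → ℂ} (hF : Differentiable ℂ F) (hGd : Differentiable ℂ G) (i : ℕ) {z : ℂ}
    (h0 : G (z + (i : ℂ) / 2) ≠ 0) :
    analyticOrderNatAt (fun s => F (s - (i : ℂ) / 2) * G s) (z + (i : ℂ) / 2) =
      analyticOrderNatAt F z := by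
  have h1 : Differentiable ℂ (fun s => F (s - (i : ℂ) / 2)) :=
    hF.comp (differentiable_id.sub_const _)
  have h2 : analyticOrderAt (fun s => F (s - (i : ℂ) / 2)) (z + (i : ℂ) / 2) =
      analyticOrderAt F z := by
    have hg : AnalyticAt ℂ (fun s : ℂ => s - (i : ℂ) / 2) (z + (i : ℂ) / 2) := by fun_prop
    have hd : deriv (fun s : ℂ => s - (i : ℂ) / 2) (z + (i : ℂ) / 2) ≠ 0 := by simp
    have h := analyticOrderAt_comp_of_deriv_ne_zero (f := F) hg hd
    have h2 : (fun s : ℂ => F (s - (i : ℂ) / 2)) = F ∘ (fun s : ℂ => s - (i : ℂ) / 2) := rfl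
    rw [h2, h]
    congr 1
    ring
  unfold analyticOrderNatAt
  rw [Pool.Agent.W164.RC.order_mul_ne (h1.analyticAt _) (hGd.analyticAt _) h0, h2]

/-- **Main theorem.** Let `g` and an odd `i < 2g` be given, `0 < c < 1` and `κ, ε, T > 0`.  There are
constants `A`, `C` such that for the ray class field `K` of `ℚ(i)` of every modulus `q`, `2 + 2i ∣ q`,
with `[K : ℚ(i)] ≥ κ N(q)`, and all `M` the function `L(i; E^g ⊗ 𝓞 K [1/M], s)` is entire, and its
zeros have the properties `ZerosNearLine`. -/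
theorem result (g i : ℕ) (hi : Odd i) (hg : i < 2 * g) (c κ ε T : ℝ) (hc0 : 0 < c) (hc1 : c < 1)
    (hκ : 0 < κ) (hε : 0 < ε) (hT : 0 < T) :
    ∃ A C : ℝ,
    ∀ q : GaussianInt, q ≠ 0 → (⟨2, 2⟩ : GaussianInt) ∣ q →
    ∀ (K : Type) [Field K] [NumberField K] (ι : GaussianInt →+* 𝓞 K)
      (art : (GaussianInt ⧸ Ideal.span {q})ˣ →* (𝓞 K ≃+* 𝓞 K)), IsRayClassField q K ι art →
    κ * (Zsqrtd.norm q : ℝ) ≤ (Nat.card art.range : ℝ) →
    ∀ M : ℕ, M ≠ 0 →
      (∀ v : HeightOneSpectrum (𝓞 K), ι q ∈ v.asIdeal → (M : 𝓞 K) ∈ v.asIdeal) →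
    ∃ L : ℂ → ℂ, IsHasseWeil K M g i L ∧
      ZerosNearLine i c ε T A C (Zsqrtd.norm q : ℝ) (Nat.card art.range : ℝ) L := by
  classical
  obtain ⟨m, rfl⟩ := hi
  obtain ⟨cd, pr, hprim⟩ := Pool.Agent.Y762.HK.exists_prim
  obtain ⟨C, hC, Hd⟩ := Pool.Agent.A856.SE.LG_dens cd pr hprim g m hc0 hc1 hκ hT.le
  obtain ⟨A, hA, Hn⟩ := Pool.Agent.A856.SE.LG_near cd pr hprim g m hκ (ε := ε * κ) (by positivity) hT
  refine ⟨A, C + C / κ, fun q hq h2 K _ _ ι art hK hdeg M hM hqM => ?_⟩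
  have hK' : Pool.Agent.W164.RC.IsRayClassField q K ι art :=
    ⟨hK.invariants, hK.kernel, hK.unramified, hK.frobenius⟩
  have hcard := Pool.Agent.W164.RC.ray_card hq h2 hK'
  have hFd := LG_diff cd pr hprim hq g m
  have hFn : ∃ z, LG pr q g m z ≠ 0 := ⟨_, Pool.Agent.A856.SE.LG_nz cd pr hprim hq g m⟩
  have hGd := GP_diff q ι M hM g (2 * m + 1)
  have hGn : ∀ s : ℂ, ((2 * m + 1 : ℕ) : ℝ) / 2 < s.re → GP q ι M hM g (2 * m + 1) s ≠ 0 :=
    fun s hs => GP_ne h2 ι M hM g (2 * m + 1) hs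
  have hnq : (H385.nrm q : ℝ) = (Zsqrtd.norm q : ℝ) := by
    unfold H385.nrm
    rw [Nat.cast_natAbs, abs_of_nonneg (GaussianInt.norm_nonneg q)]
  have hdeg' : κ * (H385.nrm q : ℝ) ≤ (H385.phiQ q : ℝ) := by
    rw [hnq, ← hcard]
    refine hdeg.trans ?_
    push_cast
    have : (0 : ℝ) ≤ (Nat.card art.range : ℝ) := Nat.cast_nonneg _
    linarith
  have Hd' := Hd q hq h2 hdeg'
  have Hn' := Hn q hq h2 hdeg'
  have h8 : (8 : ℝ) ≤ (Zsqrtd.norm q : ℝ) := by
    rw [← hnq]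
    exact_mod_cast Pool.Agent.W164.RC.eight_le_nrm hq h2
  rw [hnq] at Hd' Hn'
  obtain ⟨L, hL⟩ : ∃ L : ℂ → ℂ, L = fun s => LG pr q g m (s - ((2 * m + 1 : ℕ) : ℂ) / 2) *
    GP q ι M hM g (2 * m + 1) s := ⟨_, rfl⟩
  have hoff : ∀ δ t r : ℝ, off (2 * m + 1) L δ t r =
      (fun s : ℂ => s + ((2 * m + 1 : ℕ) : ℂ) / 2) '' Zst (LG pr q g m) δ t r := by
    intro δ t r
    rw [hL]
    exact off_eq _ _ _ _ _ _ hGn
  have hinj : Function.Injective (fun s : ℂ => s + ((2 * m + 1 : ℕ) : ℂ) / 2) :=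
    add_left_injective _
  have hZfin : ∀ δ t r : ℝ, (Zst (LG pr q g m) δ t r).Finite := fun δ t r =>
    fin_zeros hFd hFn (Zst_bdd _ _ _ _) fun _ hz => hz.1
  have hofin : ∀ δ t r : ℝ, (off (2 * m + 1) L δ t r).Finite := by
    intro δ t r
    rw [hoff]
    exact (hZfin δ t r).image _
  have hord : ∀ z : ℂ, 0 < z.re → analyticOrderNatAt L (z + ((2 * m + 1 : ℕ) : ℂ) / 2) =
      analyticOrderNatAt (LG pr q g m) z := by
    intro z hz
    rw [hL]
    refine order_eq hFd hGd _ (hGn _ ?_)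
    have e1 := re_sub (z + ((2 * m + 1 : ℕ) : ℂ) / 2) (2 * m + 1)
    rw [show z + ((2 * m + 1 : ℕ) : ℂ) / 2 - ((2 * m + 1 : ℕ) : ℂ) / 2 = z by ring] at e1
    linarith
  have hN : ∀ δ t r : ℝ, (Noff (2 * m + 1) L δ t r : ℝ) =
      ∑ᶠ ρ ∈ Zst (LG pr q g m) δ t r, (analyticOrderNatAt (LG pr q g m) ρ : ℝ) := by
    intro δ t r
    have h3 : Noff (2 * m + 1) L δ t r =
        ∑ᶠ ρ ∈ Zst (LG pr q g m) δ t r, analyticOrderNatAt (LG pr q g m) ρ := by
      unfold Noff
      rw [hoff, finsum_mem_image hinj.injOn]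
      exact finsum_mem_congr rfl fun z hz => hord z hz.2.1
    rw [h3, finsum_mem_eq_finite_toFinset_sum _ (hZfin δ t r),
      finsum_mem_eq_finite_toFinset_sum _ (hZfin δ t r)]
    push_cast
    rfl
  refine ⟨L, ⟨?_, ?_⟩, ⟨hofin, ?_, ?_, ?_⟩⟩
  · rw [hL]
    exact (hFd.comp (differentiable_id.sub_const _)).mul hGd
  · intro α β hαβ s hs
    rw [hL]
    exact hasProd_N cd pr hprim hq h2 hK' M hM hqM α β hαβ g m hs
  · intro δ t hδ ht
    rw [hN]
    refine (Hd' δ t hδ ht).trans ?_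
    apply mul_le_mul_of_nonneg_right _ (Real.rpow_nonneg (by linarith) _)
    have : 0 < C / κ := by positivity
    linarith
  · rw [hN]
    refine Hn'.trans ?_
    have hlog : 0 ≤ Real.log (Zsqrtd.norm q : ℝ) := Real.log_nonneg (by linarith)
    calc ε * κ * ((Zsqrtd.norm q : ℝ) * Real.log (Zsqrtd.norm q : ℝ))
        = ε * ((κ * (Zsqrtd.norm q : ℝ)) * Real.log (Zsqrtd.norm q : ℝ)) := by ring
      _ ≤ ε * ((Nat.card art.range : ℝ) * Real.log (Zsqrtd.norm q : ℝ)) := by gcongr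
  · intro t ht
    have hlog : 0 < Real.log (Zsqrtd.norm q : ℝ) := Real.log_pos (by linarith)
    have hr : 0 < 1 / Real.log (Zsqrtd.norm q : ℝ) := by positivity
    have ept : (((2 * m + 1 : ℕ) : ℂ) + 1) / 2 + t * I =
        (1 / 2 + t * I) + ((2 * m + 1 : ℕ) : ℂ) / 2 := by ring
    have hre : (1 / 2 + (t : ℂ) * I).re = 1 / 2 := by simp
    have him : (1 / 2 + (t : ℂ) * I).im = t := by simp
    have h1 : (analyticOrderNatAt L ((((2 * m + 1 : ℕ) : ℂ) + 1) / 2 + t * I) : ℝ) ≤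
        ∑ᶠ ρ ∈ Zst (LG pr q g m) 0 t (1 / Real.log (Zsqrtd.norm q : ℝ)),
          (analyticOrderNatAt (LG pr q g m) ρ : ℝ) := by
      rw [ept, hord _ (by rw [hre]; norm_num), finsum_mem_eq_finite_toFinset_sum _ (hZfin 0 t _)]
      by_cases h0 : LG pr q g m (1 / 2 + (t : ℂ) * I) = 0
      · have hm : (1 / 2 + (t : ℂ) * I) ∈
            Zst (LG pr q g m) 0 t (1 / Real.log (Zsqrtd.norm q : ℝ)) := by
          refine ⟨h0, by rw [hre]; norm_num, by rw [hre]; norm_num, abs_nonneg _, ?_⟩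
          rw [him, sub_self, abs_zero]
          exact hr.le
        exact Finset.single_le_sum (f := fun s => (analyticOrderNatAt (LG pr q g m) s : ℝ))
          (fun _ _ => Nat.cast_nonneg _) ((hZfin 0 t _).mem_toFinset.mpr hm)
      · have h3 : analyticOrderNatAt (LG pr q g m) (1 / 2 + (t : ℂ) * I) = 0 := by
          unfold analyticOrderNatAt
          rw [(hFd.analyticAt _).analyticOrderAt_eq_zero.mpr h0]
          rfl
        rw [h3, Nat.cast_zero]
        exact Finset.sum_nonneg fun _ _ => Nat.cast_nonneg _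
    refine h1.trans ?_
    refine (Hd' 0 t le_rfl ht).trans ?_
    rw [mul_zero, sub_zero, Real.rpow_one, add_mul]
    have h4 : C * (Zsqrtd.norm q : ℝ) ≤ C / κ * (Nat.card art.range : ℝ) := by
      rw [div_mul_eq_mul_div, le_div_iff₀ hκ]
      calc C * (Zsqrtd.norm q : ℝ) * κ = C * (κ * (Zsqrtd.norm q : ℝ)) := by ring
        _ ≤ C * (Nat.card art.range : ℝ) := by gcongr
    have h5 : 0 ≤ C * (Nat.card art.range : ℝ) := by positivity
    linarith

end Pool.Agent.Results.MP_7193be_nt.SelbergPowers
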