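import Pool.Agent.A856.ZD.Cos

/-!
# Zeros of Hecke L-functions over number fields in thin cosets of ray class characters

For every number field `K` and `𝔡 ∣ 𝔣 ∣ 𝔡³`: among the primitive ray class characters of conductor
`𝔣` in one coset of the characters modulo `𝔡`, the number of those whose L-function has a zero with
`Re s ≥ σ`, `|Im s| ≤ T` is at most `(1 + T)^A (N𝔡)^{4(1-σ)/(3-2σ)} (N𝔣)^ε` up to a constant.

These L-functions are the factors of the Hasse-Weil L-function of the zero-dimensional variety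
`Spec M`, that is of the zeta function of `M`, for the ray class fields `M` of `K`.
-/

set_option autoImplicit false
set_option maxHeartbeats 4000000

open NumberField

namespace Pool.Agent.Results.MP_7193be_nt.ThinCosetDensity

open Pool.Agent.Y773 (TPos LI)
open Pool.Agent.Y773.G (IsPrimChar)

/-- **Zero density in thin cosets of ray class characters of a number field.** -/
theorem result (K : Type) [Field K] [NumberField K] (ε : ℝ) (hε : 0 < ε) :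
    ∃ C : ℝ, 0 < C ∧ ∀ (𝔣 𝔡 : Ideal (𝓞 K)), 𝔣 ≠ ⊤ → 𝔡 ∣ 𝔣 → 𝔣 ∣ 𝔡 ^ 3 →
      ∀ (I : Type) [Fintype I] (ψ : I → Ideal (𝓞 K) →*₀ ℂ), (∀ i, IsPrimChar K 𝔣 (ψ i)) →
      Function.Injective ψ →
      (∀ i j, ∀ a : 𝓞 K, a ≠ 0 → a - 1 ∈ 𝔡 → TPos K a →
        ψ i (Ideal.span {a}) = ψ j (Ideal.span {a})) →
      ∃ L : I → ℂ → ℂ, (∀ i, Differentiable ℂ (L i)) ∧
        (∀ i, ∀ s : ℂ, 1 < s.re → L i s = LI (ψ i) s) ∧
        ∀ σ T : ℝ, 1 / 2 ≤ σ → σ ≤ 1 → 0 ≤ T →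
          (Nat.card {i // ∃ ρ : ℂ, L i ρ = 0 ∧ σ ≤ ρ.re ∧ |ρ.im| ≤ T} : ℝ) ≤
            C * (1 + T) ^ (6 * Module.finrank ℚ K + 4) *
              ((Ideal.absNorm 𝔡 : ℝ) ^ (4 * (1 - σ) / (3 - 2 * σ)) * (Ideal.absNorm 𝔣 : ℝ) ^ ε) := by
  classical
  obtain ⟨C, hC, h⟩ := Pool.Agent.A856.ZD.zd_coset K hε
  refine ⟨C, hC, fun 𝔣 𝔡 htop hd1 hd3 I hI ψ hp hinj hcong => ?_⟩
  obtain ⟨L, h1, h2, h3⟩ := h 𝔣 𝔡 htop hd1 hd3 I ψ hp hinj hcong
  refine ⟨L, h1, h2, fun σ T hσ hσ1 hT => ?_⟩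
  have h4 := h3 σ T hσ hσ1 hT
  rw [Nat.card_eq_fintype_card, Fintype.card_subtype]
  convert h4

end Pool.Agent.Results.MP_7193be_nt.ThinCosetDensity
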